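import Pool.Agent.H610.HD.Stm

/-!
# Three angle facts in the complex plane (for the project HD of helper610)
-/

set_option autoImplicit false

namespace Pool.Agent.H401.HD610

open Pool.Agent.H610.HD Real

theorem cos_norm (x : ℝ) : cos ‖(x : AddCircle (2 * π))‖ = cos x := by
  rw [AddCircle.norm_eq, cos_abs, Real.cos_sub_int_mul_two_pi]

theorem dist_eq (x y : ℝ) :
    dist (x : AddCircle (2 * π)) (y : AddCircle (2 * π)) =
      ‖((x - y : ℝ) : AddCircle (2 * π))‖ := by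
  rw [dist_eq_norm, AddCircle.coe_sub]

theorem dist_le (x y : AddCircle (2 * π)) : dist x y ≤ π := by
  rw [dist_eq_norm]
  have h := AddCircle.norm_le_half_period (2 * π) (x := x - y) (by positivity)
  rw [abs_of_pos (by positivity)] at h
  linarith

theorem inner_eq (a b : ℂ) :
    ‖a‖ * ‖b‖ * cos (dist (Complex.arg a : AddCircle (2 * π)) (Complex.arg b : AddCircle (2 * π))) =
      a.re * b.re + a.im * b.im := by
  rw [dist_eq, cos_norm, cos_sub]
  have h1 := Complex.norm_mul_cos_arg a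
  have h2 := Complex.norm_mul_sin_arg a
  have h3 := Complex.norm_mul_cos_arg b
  have h4 := Complex.norm_mul_sin_arg b
  rw [← h1, ← h2, ← h3, ← h4]
  ring

theorem norm_sub_sq' (a b : ℂ) :
    ‖a - b‖ ^ 2 = ‖a‖ ^ 2 + ‖b‖ ^ 2 - 2 * (‖a‖ * ‖b‖ *
      cos (dist (Complex.arg a : AddCircle (2 * π)) (Complex.arg b : AddCircle (2 * π)))) := by
  rw [inner_eq, Complex.sq_norm, Complex.sq_norm, Complex.sq_norm, Complex.normSq_apply,
    Complex.normSq_apply, Complex.normSq_apply, Complex.sub_re, Complex.sub_im]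
  ring

theorem R_sq : R ^ 2 = 4 / 3 := by
  rw [R, div_pow, Real.sq_sqrt (by norm_num)]
  norm_num

theorem R_pos : 0 < R := by
  rw [R]
  positivity

theorem al_facts {x : ℝ} (h2 : 2 ≤ x) (hR : x < 2 * R) :
    0 ≤ al x ∧ al x ≤ π / 6 ∧ x = 2 * R * cos (al x) := by
  have hRp := R_pos
  have h0 : 0 ≤ x / (2 * R) := by positivity
  have h1 : x / (2 * R) < 1 := by rw [div_lt_one (by positivity)]; exact hR
  refine ⟨arccos_nonneg _, ?_, ?_⟩
  · have h3 : arccos (cos (π / 6)) = π / 6 := arccos_cos (by positivity) (by linarith [pi_pos])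
    rw [al, ← h3]
    apply arccos_le_arccos
    rw [cos_pi_div_six, le_div_iff₀ (by positivity)]
    have h4 : √3 * R = 2 := by
      rw [R]
      field_simp
    have h5 : √3 / 2 * (2 * R) = √3 * R := by ring
    rw [h4] at h5
    linarith
  · rw [al, cos_arccos (by linarith) h1.le]
    field_simp

theorem ang1 (a b : ℂ) (ha : 2 ≤ ‖a‖) (ha' : ‖a‖ < 2 * R) (hb : 2 ≤ ‖b‖) (hb' : ‖b‖ < 2 * R)
    (hab : 2 ≤ ‖a - b‖) : al ‖a‖ + al ‖b‖ ≤
      dist (Complex.arg a : AddCircle (2 * π)) (Complex.arg b : AddCircle (2 * π)) := by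
  by_contra hlt
  rw [not_le] at hlt
  obtain ⟨hu0, hu1, hu2⟩ := al_facts ha ha'
  obtain ⟨hv0, hv1, hv2⟩ := al_facts hb hb'
  have hs := norm_sub_sq' a b
  set t := dist (Complex.arg a : AddCircle (2 * π)) (Complex.arg b : AddCircle (2 * π)) with ht
  have ht0 : 0 ≤ t := dist_nonneg
  set u := al ‖a‖ with hu
  set v := al ‖b‖ with hv
  clear_value t u v
  have hcos : cos (u + v) < cos t :=
    Real.cos_lt_cos_of_nonneg_of_le_pi ht0 (by linarith [pi_pos]) hlt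
  have hpos : 0 < ‖a‖ * ‖b‖ := by positivity
  have h1 : ‖a - b‖ ^ 2 < ‖a‖ ^ 2 + ‖b‖ ^ 2 - 2 * (‖a‖ * ‖b‖ * cos (u + v)) := by
    rw [hs]
    have := mul_lt_mul_of_pos_left hcos hpos
    linarith
  have h2 : ‖a‖ ^ 2 + ‖b‖ ^ 2 - 2 * (‖a‖ * ‖b‖ * cos (u + v)) = 4 * R ^ 2 * sin (u + v) ^ 2 := by
    rw [hu2, hv2, cos_add, sin_add]
    have h3 : sin u ^ 2 = 1 - cos u ^ 2 := by rw [sin_sq]
    have h4 : sin v ^ 2 = 1 - cos v ^ 2 := by rw [sin_sq]
    have h5 : (sin u * cos v + cos u * sin v) ^ 2 =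
        sin u ^ 2 * cos v ^ 2 + cos u ^ 2 * sin v ^ 2 + 2 * (cos u * cos v * sin u * sin v) := by
      ring
    rw [h5, h3, h4]
    ring
  have h6 : sin (u + v) ≤ √3 / 2 := by
    rw [← sin_pi_div_three]
    exact sin_le_sin_of_le_of_le_pi_div_two (by linarith [pi_pos]) (by linarith [pi_pos])
      (by linarith)
  have h7 : 0 ≤ sin (u + v) := sin_nonneg_of_nonneg_of_le_pi (by linarith) (by linarith [pi_pos])
  have h8 : sin (u + v) ^ 2 ≤ 3 / 4 := by
    have h9 : sin (u + v) ^ 2 ≤ (√3 / 2) ^ 2 := by gcongr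
    rw [div_pow, Real.sq_sqrt (by norm_num)] at h9
    linarith
  rw [h2, R_sq] at h1
  nlinarith

theorem cos_five : (0 : ℝ) < cos (5 * π / 12) :=
  cos_pos_of_mem_Ioo ⟨by linarith [pi_pos], by linarith [pi_pos]⟩

theorem ang2 (a : ℂ) (ha : a ≠ 0) (h : dist (Complex.arg a : AddCircle (2 * π))
    ((-(π / 2) : ℝ) : AddCircle (2 * π)) ≤ 5 * π / 12) : a.im < 0 := by
  have h1 : cos (5 * π / 12) ≤ cos (dist (Complex.arg a : AddCircle (2 * π))
      ((-(π / 2) : ℝ) : AddCircle (2 * π))) :=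
    cos_le_cos_of_nonneg_of_le_pi dist_nonneg (by linarith [pi_pos]) h
  rw [dist_eq, cos_norm, sub_neg_eq_add, cos_add_pi_div_two] at h1
  have h2 := Complex.norm_mul_sin_arg a
  have h3 := cos_five
  have h4 : 0 < ‖a‖ := norm_pos_iff.2 ha
  rw [← h2]
  nlinarith

theorem ang3 (a b : ℂ) (ha : ‖a‖ ≤ 2007 / 1000) (hb : ‖b‖ ≤ 2007 / 1000)
    (h1 : dist (Complex.arg a : AddCircle (2 * π))
      ((-(π / 2) : ℝ) : AddCircle (2 * π)) ≤ 5 * π / 12)
    (h2 : dist (Complex.arg b : AddCircle (2 * π))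
      ((-(π / 2) : ℝ) : AddCircle (2 * π)) ≤ 5 * π / 12) : ‖a - b‖ ≤ 39 / 10 := by
  have h3 : dist (Complex.arg a : AddCircle (2 * π)) (Complex.arg b : AddCircle (2 * π)) ≤
      5 * π / 6 := by
    have h4 := dist_triangle_right (Complex.arg a : AddCircle (2 * π))
      (Complex.arg b : AddCircle (2 * π)) ((-(π / 2) : ℝ) : AddCircle (2 * π))
    linarith
  have h5 := norm_sub_sq' a b
  have h6 : cos (5 * π / 6) ≤
      cos (dist (Complex.arg a : AddCircle (2 * π)) (Complex.arg b : AddCircle (2 * π))) :=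
    cos_le_cos_of_nonneg_of_le_pi dist_nonneg (by linarith [pi_pos]) h3
  have h7 : cos (5 * π / 6) = -(√3 / 2) := by
    rw [show 5 * π / 6 = π - π / 6 by ring, cos_pi_sub, cos_pi_div_six]
  rw [h7] at h6
  set t := cos (dist (Complex.arg a : AddCircle (2 * π)) (Complex.arg b : AddCircle (2 * π)))
  clear_value t
  have h8 : √3 ≤ 1733 / 1000 := by
    rw [Real.sqrt_le_left (by norm_num)]
    norm_num
  have h9 : -(1733 / 2000) ≤ t := by linarith
  have ha0 := norm_nonneg a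
  have hb0 := norm_nonneg b
  have h10 : ‖a‖ * ‖b‖ ≤ (2007 / 1000) ^ 2 := by nlinarith
  have h11 : ‖a‖ ^ 2 ≤ (2007 / 1000) ^ 2 := by gcongr
  have h12 : ‖b‖ ^ 2 ≤ (2007 / 1000) ^ 2 := by gcongr
  have h13 : -(‖a‖ * ‖b‖ * t) ≤ (2007 / 1000) ^ 2 * (1733 / 2000) := by
    have h14 : 0 ≤ ‖a‖ * ‖b‖ := by positivity
    nlinarith
  have h15 : ‖a - b‖ ^ 2 ≤ (39 / 10) ^ 2 := by
    rw [h5]
    norm_num at h11 h12 h13 ⊢
    linarith
  exact (sq_le_sq₀ (norm_nonneg _) (by norm_num)).1 h15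

theorem ang : S_ang :=
  ⟨ang1, ang2, fun a b _ _ ha hb h1 h2 => ang3 a b ha hb h1 h2⟩

end Pool.Agent.H401.HD610
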